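import Pool.Agent.H317.AM.Chain

set_option autoImplicit false

namespace Pool.Agent.H317.AM

open Monoid

universe u

variable {G : Bool → Type u} [∀ i, Group (G i)] {C : Type u} [Group C] {φ : ∀ i, C →* G i}

/-- `pull φ i s E` is the subgroup `C ∩ s⁻¹ E s` of `C`, computed in the factor `G i`. -/
def pull (φ : ∀ i, C →* G i) (i : Bool) (s : G i) (E : Subgroup C) : Subgroup C :=
  (E.map (φ i)).comap ((MulAut.conj s).toMonoidHom.comp (φ i))

lemma mem_pull {i : Bool} {s : G i} {E : Subgroup C} {c : C} :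
    c ∈ pull φ i s E ↔ s * φ i c * s⁻¹ ∈ E.map (φ i) := Iff.rfl

lemma mem_map' (hφ : ∀ i, Function.Injective (φ i)) {i : Bool} {E : Subgroup C} {c : C} :
    φ i c ∈ E.map (φ i) ↔ c ∈ E := Subgroup.mem_map_iff_mem (hφ i)

lemma CP.shrink (hφ : ∀ i, Function.Injective (φ i)) {i : Bool} {s : G i}
    (hs : s ∉ (φ i).range) (E : Subgroup C) : CP φ i E s (pull φ i s E) := by
  refine ⟨E.map (φ i), fun c => mem_map' hφ, fun c => Iff.rfl, fun c hc => hs ?_⟩
  obtain ⟨e, -, he⟩ := hc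
  refine ⟨e * c⁻¹, ?_⟩
  rw [map_mul, he, map_inv, mul_inv_cancel_right]

lemma CP.symm {i : Bool} {s : G i} {E E' : Subgroup C} (h : CP φ i E s E') :
    CP φ i E' s⁻¹ E := by
  obtain ⟨H, h1, h2, h3⟩ := h
  refine ⟨H.comap (MulAut.conj s).toMonoidHom, fun c => ?_, fun c => ?_, fun c hc => ?_⟩
  · exact h2 c
  · have : (MulAut.conj s).toMonoidHom (s⁻¹ * φ i c * s⁻¹⁻¹) = φ i c := by
      show s * (s⁻¹ * φ i c * s⁻¹⁻¹) * s⁻¹ = _
      group
    rw [Subgroup.mem_comap, this]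
    exact h1 c
  · have h4 : s * (s⁻¹ * φ i c) * s⁻¹ ∈ H := hc
    have h5 := H.inv_mem h4
    refine h3 c⁻¹ ?_
    have e : (s * (s⁻¹ * φ i c) * s⁻¹)⁻¹ = s * φ i c⁻¹ := by
      rw [map_inv]
      group
    rwa [e] at h5

/-- The subgroup generated by `C` and its conjugate by `x`. -/
def twoConj (φ : ∀ i, C →* G i) (i : Bool) (x : G i) : Subgroup (G i) :=
  Subgroup.closure (Set.range (φ i) ∪ Set.range (fun c : C => x * φ i c * x⁻¹))

lemma CP.big {i : Bool} {s : G i} (hs : s ∉ twoConj φ i s) : CP φ i ⊤ s ⊤ := by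
  refine ⟨twoConj φ i s, fun c => ⟨fun _ => Subgroup.mem_top _, fun _ =>
    Subgroup.subset_closure (Or.inl ⟨c, rfl⟩)⟩, fun c => ⟨fun _ => Subgroup.mem_top _, fun _ =>
    Subgroup.subset_closure (Or.inr ⟨c, rfl⟩)⟩, fun c hc => hs ?_⟩
  have h2 : φ i c ∈ twoConj φ i s := Subgroup.subset_closure (Or.inl ⟨c, rfl⟩)
  simpa using (twoConj φ i s).mul_mem hc ((twoConj φ i s).inv_mem h2)

lemma mem_normalizer' {P : Type u} [Group P] {X : Subgroup P} {g : P}
    (h1 : ∀ h ∈ X, g * h * g⁻¹ ∈ X) (h2 : ∀ h ∈ X, g⁻¹ * h * g ∈ X) :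
    g ∈ Subgroup.normalizer (X : Set P) := by
  rw [Subgroup.mem_normalizer_iff]
  intro h
  refine ⟨fun hh => h1 h hh, fun hh => ?_⟩
  have := h2 _ hh
  simpa [mul_assoc] using this

lemma le_pull {K : Subgroup C} (hK : ∀ i, (K.map (φ i)).Normal) (i : Bool) (s : G i)
    {E : Subgroup C} (hE : K ≤ E) : K ≤ pull φ i s E := by
  intro c hc
  rw [mem_pull]
  exact Subgroup.map_mono hE ((hK i).conj_mem _ (Subgroup.mem_map_of_mem _ hc) s)

/-- In a factor in which `b` lies in `⟨C, bCb⁻¹⟩`, the element `b` normalizes all subgroups of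
`C ∩ bCb⁻¹` containing `K`, if all the subgroups of `C` containing `K` are normal. -/
lemma ded_normalizer {K : Subgroup C}
    (hK : ∀ i, (K.map (φ i)).Normal) (hded : ∀ X : Subgroup C, K ≤ X → X.Normal) {i : Bool}
    {b : G i} (hb : b ∈ twoConj φ i b) {X : Subgroup C} (hX : K ≤ X) (hX' : X ≤ pull φ i b⁻¹ ⊤) :
    b ∈ Subgroup.normalizer ((X.map (φ i) : Subgroup (G i)) : Set (G i)) := by
  have hXn := hded X hX
  have hn' := hded (pull φ i b X) (le_pull hK i b hX)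
  have g1 : ∀ c, ∀ h ∈ X.map (φ i), φ i c * h * (φ i c)⁻¹ ∈ X.map (φ i) := by
    rintro c _ ⟨x, hx, rfl⟩
    exact ⟨c * x * c⁻¹, hXn.conj_mem x hx c, by simp⟩
  have g2 : ∀ c, ∀ h ∈ X.map (φ i), (b * φ i c * b⁻¹) * h * (b * φ i c * b⁻¹)⁻¹ ∈ X.map (φ i) := by
    rintro c _ ⟨x, hx, rfl⟩
    obtain ⟨x', -, hx'⟩ := hX' hx
    have e1 : b * φ i x' * b⁻¹ = φ i x := by
      rw [hx']
      show b * (b⁻¹ * φ i x * b⁻¹⁻¹) * b⁻¹ = _
      group
    have hx'' : x' ∈ pull φ i b X := by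
      rw [mem_pull, e1]
      exact Subgroup.mem_map_of_mem _ hx
    have := hn'.conj_mem x' hx'' c
    rw [mem_pull] at this
    have e2 : (b * φ i c * b⁻¹) * φ i x * (b * φ i c * b⁻¹)⁻¹ = b * φ i (c * x' * c⁻¹) * b⁻¹ := by
      rw [← e1, map_mul, map_mul, map_inv]
      group
    rw [e2]
    exact this
  have hle : twoConj φ i b ≤ Subgroup.normalizer ((X.map (φ i) : Subgroup (G i)) : Set (G i)) := by
    rw [twoConj, Subgroup.closure_le]
    rintro g (⟨c, rfl⟩ | ⟨c, rfl⟩)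
    · refine mem_normalizer' (g1 c) fun h hh => ?_
      have := g1 c⁻¹ h hh
      simpa using this
    · refine mem_normalizer' (g2 c) fun h hh => ?_
      have := g2 c⁻¹ h hh
      have e : (b * φ i c⁻¹ * b⁻¹) * h * (b * φ i c⁻¹ * b⁻¹)⁻¹
        = (b * φ i c * b⁻¹)⁻¹ * h * (b * φ i c * b⁻¹) := by
        rw [map_inv]
        group
      rwa [e] at this
  exact hle hb

/-- The element `b` of the factor `G i` normalizes all subgroups of `C ∩ bCb⁻¹` containing `K`. -/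
def ZZ (φ : ∀ i, C →* G i) (K : Subgroup C) (i : Bool) (b : G i) : Prop :=
  ∀ X : Subgroup C, K ≤ X → X ≤ pull φ i b⁻¹ ⊤ →
    b ∈ Subgroup.normalizer ((X.map (φ i) : Subgroup (G i)) : Set (G i))

lemma zz_pull (hφ : ∀ i, Function.Injective (φ i)) {K : Subgroup C}
    (hK : ∀ i, (K.map (φ i)).Normal) {i : Bool}
    {b : G i} (hb : ZZ φ K i b) {X : Subgroup C} (hX : K ≤ X) :
    pull φ i b X = X ⊓ pull φ i b⁻¹ ⊤ := by
  have hD : K ≤ pull φ i b⁻¹ ⊤ := le_pull hK i b⁻¹ le_top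
  have hn := hb (X ⊓ pull φ i b⁻¹ ⊤) (le_inf hX hD) inf_le_right
  rw [Subgroup.mem_normalizer_iff] at hn
  ext c
  constructor
  · rintro ⟨v, hv, hv'⟩
    have hv'' : φ i v = b * φ i c * b⁻¹ := hv'
    have h1 : v ∈ pull φ i b⁻¹ ⊤ := by
      rw [mem_pull, hv'']
      refine ⟨c, Subgroup.mem_top _, ?_⟩
      group
    have h2 : φ i c ∈ (X ⊓ pull φ i b⁻¹ ⊤).map (φ i) := by
      rw [hn, ← hv'']
      exact Subgroup.mem_map_of_mem _ ⟨hv, h1⟩
    exact (mem_map' hφ).1 h2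
  · intro hc
    rw [mem_pull]
    exact Subgroup.map_mono inf_le_left ((hn _).1 (Subgroup.mem_map_of_mem _ hc))

lemma zz_pull_inv (hφ : ∀ i, Function.Injective (φ i)) {K : Subgroup C}
    (hK : ∀ i, (K.map (φ i)).Normal) {i : Bool}
    {b : G i} (hb : ZZ φ K i b) {X : Subgroup C} (hX : K ≤ X) :
    pull φ i b⁻¹ X = X ⊓ pull φ i b⁻¹ ⊤ := by
  have hD : K ≤ pull φ i b⁻¹ ⊤ := le_pull hK i b⁻¹ le_top
  have hn := hb (X ⊓ pull φ i b⁻¹ ⊤) (le_inf hX hD) inf_le_right
  rw [Subgroup.mem_normalizer_iff] at hn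
  have ht := zz_pull hφ hK hb (X := ⊤) le_top
  ext c
  constructor
  · rintro ⟨v, hv, hv'⟩
    have hv'' : φ i v = b⁻¹ * φ i c * b⁻¹⁻¹ := hv'
    have e1 : b * φ i v * b⁻¹ = φ i c := by
      rw [hv'']
      group
    have h1 : v ∈ pull φ i b ⊤ := by
      rw [mem_pull, e1]
      exact ⟨c, Subgroup.mem_top _, rfl⟩
    rw [ht] at h1
    have h2 : φ i c ∈ (X ⊓ pull φ i b⁻¹ ⊤).map (φ i) := by
      rw [← e1]
      exact (hn _).1 (Subgroup.mem_map_of_mem _ ⟨hv, h1.2⟩)
    exact (mem_map' hφ).1 h2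
  · intro hc
    rw [mem_pull]
    have h2 : b⁻¹ * φ i c * b⁻¹⁻¹ ∈ (X ⊓ pull φ i b⁻¹ ⊤).map (φ i) := by
      rw [hn]
      have e : b * (b⁻¹ * φ i c * b⁻¹⁻¹) * b⁻¹ = φ i c := by group
      rw [e]
      exact Subgroup.mem_map_of_mem _ hc
    exact Subgroup.map_mono inf_le_left h2

lemma finish_top (hφ : ∀ i, Function.Injective (φ i)) {i₀ i : Bool} (hi : i₀ ≠ i)
    (h : Sem φ i₀ True i ⊤) : ∃ M : Subgroup (PushoutI φ), IsCoatom M :=
  h.finish hφ hi ⊤ ∅ (fun c => by simp) (by simp)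

lemma not_mem_range {i : Bool} {x : G i} (hx : x ∉ twoConj φ i x) : x ∉ (φ i).range := by
  rintro ⟨c, rfl⟩
  exact hx (Subgroup.subset_closure (Or.inl ⟨c, rfl⟩))

lemma exists_not_mem {i : Bool} (h : ¬ Function.Surjective (φ i)) : ∃ x, x ∉ (φ i).range := by
  by_contra hc
  push Not at hc
  exact h hc

/-- Each factor contains an element `x` outside `C` which is outside `⟨C, xCx⁻¹⟩`, or which
normalizes all the subgroups between `K` and `C ∩ xCx⁻¹`. -/
theorem caseNZ (hφ : ∀ i, Function.Injective (φ i)) {K : Subgroup C}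
    (hK : ∀ i, (K.map (φ i)).Normal)
    (h : ∀ i, ∃ x : G i, x ∉ (φ i).range ∧ (x ∉ twoConj φ i x ∨ ZZ φ K i x)) :
    ∃ M : Subgroup (PushoutI φ), IsCoatom M := by
  have mixed : ∀ i j : Bool, i ≠ j → ∀ a : G i, a ∉ twoConj φ i a → ∀ b : G j,
      b ∉ (φ j).range → ZZ φ K j b → ∃ M : Subgroup (PushoutI φ), IsCoatom M := by
    intro i j hij a ha b hb hj
    have har : a ∉ (φ i).range := not_mem_range ha
    have har' : a⁻¹ ∉ (φ i).range := fun h => har (inv_mem_iff.1 h)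
    set D := pull φ j b⁻¹ ⊤ with hD
    have hU : pull φ j b ⊤ = D := by
      rw [zz_pull hφ hK hj le_top, top_inf_eq]
    have kD : K ≤ D := le_pull hK j _ le_top
    set V := pull φ i a D with hV
    have kV : K ≤ V := le_pull hK i _ kD
    set W := V ⊓ D with hW
    have hW' : pull φ j b V = W := zz_pull hφ hK hj kV
    have kW : K ≤ W := le_inf kV kD
    set L := pull φ i a⁻¹ W with hL
    have kL : K ≤ L := le_pull hK i _ kW
    have hLD : L ≤ D := by
      rintro c ⟨w, hw, hw'⟩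
      have hw'' : φ i w = a⁻¹ * φ i c * a⁻¹⁻¹ := hw'
      have h1 : w ∈ V := hw.1
      rw [hV, mem_pull, hw''] at h1
      have e : a * (a⁻¹ * φ i c * a⁻¹⁻¹) * a⁻¹ = φ i c := by group
      rw [e] at h1
      exact (mem_map' hφ).1 h1
    have hLL : pull φ j b L = L := by
      rw [zz_pull hφ hK hj kL]
      exact inf_eq_left.2 hLD
    have c1 : CP φ j ⊤ b D := hU ▸ CP.shrink hφ hb ⊤
    have c2 : CP φ i D a V := CP.shrink hφ har D
    have c3 : CP φ j V b W := hW' ▸ CP.shrink hφ hb V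
    have c4 : CP φ i W a⁻¹ L := CP.shrink hφ har' W
    have c5 : CP φ j L b L := by
      have := CP.shrink hφ hb L
      rwa [hLL] at this
    have c6 : CP φ i L a W := by
      have := c4.symm
      rwa [inv_inv] at this
    have s0 : Sem φ i False j ⊤ := Sem.start hij
    have s1 := Sem.step hφ hij.symm s0 c1
    have s2 := Sem.step hφ hij s1 c2
    have s3 := Sem.step hφ hij.symm s2 c3
    have s4 := Sem.step hφ hij s3 c4
    have s5 := Sem.step hφ hij.symm s4 c5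
    have s6 := Sem.step hφ hij s5 c6
    have s7 := Sem.step hφ hij.symm s6 c3.symm
    have s8 := Sem.step hφ hij s7 c2.symm
    have s9 := Sem.step hφ hij.symm s8 c1.symm
    have s10 := Sem.step hφ hij s9 (CP.big ha)
    exact finish_top hφ hij s10
  obtain ⟨a, ha0, ha⟩ := h true
  obtain ⟨b, hb0, hb⟩ := h false
  rcases ha with ha | ha
  · rcases hb with hb | hb
    · have s0 : Sem φ true False false ⊤ := Sem.start (by decide)
      have s1 := Sem.step hφ (j := true) (by decide) s0 (CP.big hb)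
      have s2 := Sem.step hφ (j := false) (by decide) s1 (CP.big ha)
      exact finish_top hφ (by decide) s2
    · exact mixed true false (by decide) a ha b hb0 hb
  · rcases hb with hb | hb
    · exact mixed false true (by decide) b hb a ha0 ha
    · have hb' : b⁻¹ ∉ (φ false).range := fun h => hb0 (inv_mem_iff.1 h)
      have ha' : a⁻¹ ∉ (φ true).range := fun h => ha0 (inv_mem_iff.1 h)
      have kA : K ≤ pull φ true a⁻¹ ⊤ := le_pull hK true _ le_top
      have kB : K ≤ pull φ false b⁻¹ ⊤ := le_pull hK false _ le_top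
      have eB : pull φ false b ⊤ = pull φ false b⁻¹ ⊤ := by
        rw [zz_pull hφ hK hb le_top, top_inf_eq]
      have c1 : CP φ false ⊤ b (pull φ false b⁻¹ ⊤) := eB ▸ CP.shrink hφ hb0 ⊤
      have c2 : CP φ true (pull φ false b⁻¹ ⊤) a (pull φ false b⁻¹ ⊤ ⊓ pull φ true a⁻¹ ⊤) := by
        have := CP.shrink hφ ha0 (pull φ false b⁻¹ ⊤)
        rwa [zz_pull hφ hK ha kB] at this
      have c3 : CP φ false (pull φ false b⁻¹ ⊤ ⊓ pull φ true a⁻¹ ⊤) b (pull φ true a⁻¹ ⊤) := by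
        have := (CP.shrink hφ hb' (pull φ true a⁻¹ ⊤)).symm
        rwa [zz_pull_inv hφ hK hb kA, inf_comm, inv_inv] at this
      have c4 : CP φ true (pull φ true a⁻¹ ⊤) a ⊤ := by
        have := (CP.shrink hφ ha' ⊤).symm
        rwa [inv_inv] at this
      have s0 : Sem φ true False false ⊤ := Sem.start (by decide)
      have s1 := Sem.step hφ (j := true) (by decide) s0 c1
      have s2 := Sem.step hφ (j := false) (by decide) s1 c2
      have s3 := Sem.step hφ (j := true) (by decide) s2 c3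
      have s4 := Sem.step hφ (j := false) (by decide) s3 c4
      exact finish_top hφ (by decide) s4

/-- Case (a): all subgroups of `C` above `K` are normal. -/
theorem caseDed (hφ : ∀ i, Function.Injective (φ i)) (hs : ∀ i, ¬ Function.Surjective (φ i))
    {K : Subgroup C} (hK : ∀ i, (K.map (φ i)).Normal)
    (hded : ∀ X : Subgroup C, K ≤ X → X.Normal) :
    ∃ M : Subgroup (PushoutI φ), IsCoatom M := by
  refine caseNZ hφ hK fun i => ?_
  obtain ⟨b, hb⟩ := exists_not_mem (hs i)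
  refine ⟨b, hb, ?_⟩
  by_cases h : b ∈ twoConj φ i b
  · exact Or.inr fun X hX hX' => ded_normalizer hK hded h hX hX'
  · exact Or.inl h

/-- Case (b): a factor splits over `C`, modulo `K`. -/
theorem caseSplit (hφ : ∀ i, Function.Injective (φ i)) (hs : ∀ i, ¬ Function.Surjective (φ i))
    {K : Subgroup C} (hK : ∀ i, (K.map (φ i)).Normal) (i : Bool) (V : Subgroup (G i))
    (hV : V.Normal) (h1 : (φ i).range ⊔ V = ⊤) (h2 : (φ i).range ⊓ V ≤ K.map (φ i)) :
    ∃ M : Subgroup (PushoutI φ), IsCoatom M := by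
  obtain ⟨j, hj⟩ : ∃ j : Bool, j ≠ i := ⟨!i, by simp⟩
  obtain ⟨b, hb⟩ := exists_not_mem (hs i)
  obtain ⟨a, ha⟩ := exists_not_mem (hs j)
  have s0 : Sem φ j False i ⊤ := Sem.start hj
  have s1 := Sem.step hφ hj.symm s0 (CP.shrink hφ hb ⊤)
  have s2 := Sem.step hφ hj s1 (CP.shrink hφ ha _)
  set E := pull φ j a (pull φ i b ⊤) with hE
  have kE : K ≤ E := le_pull hK j a (le_pull hK i b le_top)
  refine s2.finish hφ hj (V ⊔ E.map (φ i)) ∅ (fun c => ⟨fun hc => ?_, fun hc => ?_⟩) ?_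
  · rw [Subgroup.mem_sup_of_normal_left] at hc
    obtain ⟨v, hv, _, ⟨e, he, rfl⟩, hc⟩ := hc
    have hv' : v = φ i (c * e⁻¹) := by
      rw [map_mul, map_inv, ← hc, mul_inv_cancel_right]
    have h3 : v ∈ K.map (φ i) := h2 ⟨⟨_, hv'.symm⟩, hv⟩
    rw [hv', mem_map' hφ] at h3
    have := E.mul_mem (kE h3) he
    simpa using this
  · exact Subgroup.mem_sup_right (Subgroup.mem_map_of_mem _ hc)
  · rw [eq_top_iff, ← h1]
    refine le_sup_of_le_left (sup_le le_sup_left (le_sup_of_le_right le_sup_left))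

/-- Case (c): an element `s` of the factor `G i` outside `C` normalizes `C ∩ b⁻¹Cb`, where `b` is in
the other factor and outside `C`, and the factor `G i` contains some `a` outside `⟨C, aCa⁻¹⟩`. -/
theorem caseNorm (hφ : ∀ i, Function.Injective (φ i)) {i j : Bool} (hij : i ≠ j) {a s : G i}
    {b : G j} (ha : a ∉ twoConj φ i a) (hs : s ∉ (φ i).range) (hb : b ∉ (φ j).range)
    (h2 : s ∈ Subgroup.normalizer (((pull φ j b ⊤).map (φ i) : Subgroup (G i)) : Set (G i))) :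
    ∃ M : Subgroup (PushoutI φ), IsCoatom M := by
  have e1 : pull φ i s (pull φ j b ⊤) = pull φ j b ⊤ := by
    ext c
    rw [mem_pull, ← Subgroup.mem_normalizer_iff.1 h2, mem_map' hφ]
  have c1 : CP φ j ⊤ b (pull φ j b ⊤) := CP.shrink hφ hb ⊤
  have c2 : CP φ i (pull φ j b ⊤) s (pull φ j b ⊤) := by
    have := CP.shrink hφ hs (pull φ j b ⊤)
    rwa [e1] at this
  have s0 : Sem φ i False j ⊤ := Sem.start hij
  have s1 := Sem.step hφ hij.symm s0 c1
  have s2 := Sem.step hφ hij s1 c2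
  have s3 := Sem.step hφ hij.symm s2 c1.symm
  have s4 := Sem.step hφ hij s3 (CP.big ha)
  exact finish_top hφ hij s4

end Pool.Agent.H317.AM
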