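import Mathlib

set_option autoImplicit false

namespace Pool.Agent.H317.AM

open Monoid

universe u

/-- Swapping two isomorphic orbits, equivariantly. -/
lemma swapLemma {C Y Z : Type u} [Group C] (u : C →* Equiv.Perm Y) (v : C →* Equiv.Perm Z)
    (y : Y) (z : Z) (h : ∀ c, u c y = y ↔ v c z = z) :
    ∃ σ : Equiv.Perm (Y ⊕ Z), (∀ w, σ (σ w) = w) ∧
      (∀ c, σ (Sum.inl (u c y)) = Sum.inr (v c z)) ∧
      (∀ c, σ (Sum.inr (v c z)) = Sum.inl (u c y)) ∧
      (∀ w, (∀ c, u c y ≠ w) → σ (Sum.inl w) = Sum.inl w) ∧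
      (∀ w, (∀ c, v c z ≠ w) → σ (Sum.inr w) = Sum.inr w) ∧
      (∀ c w, σ (Sum.map (u c) (v c) w) = Sum.map (u c) (v c) (σ w)) := by
  classical
  have key : ∀ c d, u c y = u d y ↔ v c z = v d z := by
    intro c d
    have h1 : u c y = u d y ↔ u (d⁻¹ * c) y = y := by
      rw [map_mul, map_inv, Equiv.Perm.mul_apply, Equiv.Perm.inv_eq_iff_eq]
    have h2 : v c z = v d z ↔ v (d⁻¹ * c) z = z := by
      rw [map_mul, map_inv, Equiv.Perm.mul_apply, Equiv.Perm.inv_eq_iff_eq]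
    rw [h1, h2, h]
  let s : Y ⊕ Z → Y ⊕ Z := fun w => match w with
    | Sum.inl w => if hw : ∃ c, u c y = w then Sum.inr (v hw.choose z) else Sum.inl w
    | Sum.inr w => if hw : ∃ c, v c z = w then Sum.inl (u hw.choose y) else Sum.inr w
  have s1 : ∀ c, s (Sum.inl (u c y)) = Sum.inr (v c z) := by
    intro c
    have hw : ∃ d, u d y = u c y := ⟨c, rfl⟩
    show (if hw : ∃ d, u d y = u c y then Sum.inr (v hw.choose z) else Sum.inl (u c y)) = _
    rw [dif_pos hw]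
    exact congrArg Sum.inr ((key _ _).1 hw.choose_spec)
  have s2 : ∀ c, s (Sum.inr (v c z)) = Sum.inl (u c y) := by
    intro c
    have hw : ∃ d, v d z = v c z := ⟨c, rfl⟩
    show (if hw : ∃ d, v d z = v c z then Sum.inl (u hw.choose y) else Sum.inr (v c z)) = _
    rw [dif_pos hw]
    exact congrArg Sum.inl ((key _ _).2 hw.choose_spec)
  have s3 : ∀ w, (∀ c, u c y ≠ w) → s (Sum.inl w) = Sum.inl w := by
    intro w hw
    have hw' : ¬ ∃ d, u d y = w := fun ⟨d, hd⟩ => hw d hd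
    show (if hw : ∃ d, u d y = w then Sum.inr (v hw.choose z) else Sum.inl w) = _
    rw [dif_neg hw']
  have s4 : ∀ w, (∀ c, v c z ≠ w) → s (Sum.inr w) = Sum.inr w := by
    intro w hw
    have hw' : ¬ ∃ d, v d z = w := fun ⟨d, hd⟩ => hw d hd
    show (if hw : ∃ d, v d z = w then Sum.inl (u hw.choose y) else Sum.inr w) = _
    rw [dif_neg hw']
  have ss : ∀ w, s (s w) = w := by
    rintro (w | w)
    · by_cases hw : ∃ c, u c y = w
      · obtain ⟨c, rfl⟩ := hw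
        rw [s1, s2]
      · rw [s3 w (fun c hc => hw ⟨c, hc⟩), s3 w (fun c hc => hw ⟨c, hc⟩)]
    · by_cases hw : ∃ c, v c z = w
      · obtain ⟨c, rfl⟩ := hw
        rw [s2, s1]
      · rw [s4 w (fun c hc => hw ⟨c, hc⟩), s4 w (fun c hc => hw ⟨c, hc⟩)]
  refine ⟨⟨s, s, ss, ss⟩, ss, s1, s2, s3, s4, ?_⟩
  rintro c (w | w)
  · show s (Sum.inl (u c w)) = Sum.map (u c) (v c) (s (Sum.inl w))
    by_cases hw : ∃ d, u d y = w
    · obtain ⟨d, rfl⟩ := hw
      have : u c (u d y) = u (c * d) y := by rw [map_mul, Equiv.Perm.mul_apply]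
      rw [this, s1, s1, map_mul, Equiv.Perm.mul_apply]
      rfl
    · rw [s3 w (fun c hc => hw ⟨c, hc⟩), s3 (u c w)]
      · rfl
      · intro d hd
        refine hw ⟨c⁻¹ * d, ?_⟩
        rw [map_mul, Equiv.Perm.mul_apply, hd, map_inv]
        exact Equiv.symm_apply_apply _ _
  · show s (Sum.inr (v c w)) = Sum.map (u c) (v c) (s (Sum.inr w))
    by_cases hw : ∃ d, v d z = w
    · obtain ⟨d, rfl⟩ := hw
      have : v c (v d z) = v (c * d) z := by rw [map_mul, Equiv.Perm.mul_apply]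
      rw [this, s2, s2, map_mul, Equiv.Perm.mul_apply]
      rfl
    · rw [s4 w (fun c hc => hw ⟨c, hc⟩), s4 (v c w)]
      · rfl
      · intro d hd
        refine hw ⟨c⁻¹ * d, ?_⟩
        rw [map_mul, Equiv.Perm.mul_apply, hd, map_inv]
        exact Equiv.symm_apply_apply _ _

variable {G : Bool → Type u} [∀ i, Group (G i)] {C : Type u} [Group C] {φ : ∀ i, C →* G i}

lemma bool_eq {i j k : Bool} (hij : i ≠ j) (hk : k ≠ i) : k = j := by
  cases i <;> cases j <;> cases k <;> simp_all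

/-- The inductive invariant: an action with a point `p` (to be fixed by the factor `i₀`) connected to
a point `y` in such a way that the action of the factor `i` on the `C`-orbit of `y` may still be
changed. -/
def Sem (φ : ∀ i, C →* G i) (i₀ : Bool) (t : Prop) (i : Bool) (E : Subgroup C) : Prop :=
  ∃ (Y : Type u) (f : ∀ j, G j →* Equiv.Perm Y) (p y : Y),
    (∀ j k c, f j (φ j c) = f k (φ k c)) ∧ (t → p ≠ y) ∧
    (∀ c, f i (φ i c) y = y ↔ c ∈ E) ∧
    ∀ (Y' : Type u) (f' : ∀ j, G j →* Equiv.Perm Y') (e : Y → Y'),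
      (∀ j, j ≠ i → ∀ x z, f' j x (e z) = e (f j x z)) →
      (∀ x z, (∀ c, f i (φ i c) y ≠ z) → (∀ c, f i (φ i c) y ≠ f i x z) →
        f' i x (e z) = e (f i x z)) →
      (∀ x, f' i₀ x (e p) = e p) ∧
        ∀ S : Set Y', e p ∈ S → (∀ j x z, z ∈ S → f' j x z ∈ S) → e y ∈ S

lemma Sem.start {i₀ i : Bool} (h : i₀ ≠ i) : Sem φ i₀ False i ⊤ := by
  refine ⟨PUnit, fun _ => 1, PUnit.unit, PUnit.unit, fun _ _ _ => rfl, fun h => h.elim,
    fun c => by simp, ?_⟩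
  intro Y' f' e h1 _
  refine ⟨fun x => ?_, fun S hS _ => hS⟩
  rw [h1 i₀ h]

/-- A pair of subgroups `E`, `E'` of `C` is closed for the letter `s` of the factor `i`. -/
def CP (φ : ∀ i, C →* G i) (i : Bool) (E : Subgroup C) (s : G i) (E' : Subgroup C) : Prop :=
  ∃ H : Subgroup (G i), (∀ c, φ i c ∈ H ↔ c ∈ E) ∧ (∀ c, s * φ i c * s⁻¹ ∈ H ↔ c ∈ E') ∧
    ∀ c, s * φ i c ∉ H

/-- Twisting: the common construction. -/
lemma twist (hφ : ∀ i, Function.Injective (φ i)) (i : Bool) (H : Subgroup (G i)) (E : Subgroup C)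
    (hH : ∀ c, φ i c ∈ H ↔ c ∈ E) {Y : Type u} (f : ∀ j, G j →* Equiv.Perm Y)
    (hf : ∀ j k c, f j (φ j c) = f k (φ k c)) (y : Y) (hy : ∀ c, f i (φ i c) y = y ↔ c ∈ E) :
    ∃ (Z : Type u) (F : ∀ j, G j →* Equiv.Perm (Y ⊕ Z)) (r : G i → Z),
      (∀ j k c, F j (φ j c) = F k (φ k c)) ∧
      (∀ j, j ≠ i → ∀ x w, F j x (Sum.inl w) = Sum.inl (f j x w)) ∧
      (∀ x w, (∀ c, f i (φ i c) y ≠ w) → (∀ c, f i (φ i c) y ≠ f i x w) →
        F i x (Sum.inl w) = Sum.inl (f i x w)) ∧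
      (∀ s, (∀ c, s * φ i c ∉ H) → F i s⁻¹ (Sum.inl y) = Sum.inr (r s)) ∧
      (∀ j s c, F j (φ j c) (Sum.inr (r s)) = Sum.inr (r s) ↔ s * φ i c * s⁻¹ ∈ H) ∧
      (∀ x ∈ H, F i x (Sum.inl y) = Sum.inl y) ∧
      (∀ j, j ≠ i → ∀ x w, ∃ w', F j x (Sum.inr w) = Sum.inr w') := by
  classical
  let K : Subgroup (PushoutI φ) := H.map (PushoutI.of (φ := φ) i)
  have hK : ∀ x, PushoutI.of (φ := φ) i x ∈ K ↔ x ∈ H := by
    intro x
    constructor
    · rintro ⟨x', hx', he⟩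
      rw [← PushoutI.of_injective hφ i he]
      exact hx'
    · intro hx
      exact ⟨x, hx, rfl⟩
  let ρ : ∀ j, G j →* Equiv.Perm (PushoutI φ ⧸ K) := fun j =>
    (MulAction.toPermHom (PushoutI φ) (PushoutI φ ⧸ K)).comp (PushoutI.of (φ := φ) j)
  have hρ : ∀ j x (z : PushoutI φ), ρ j x (z : PushoutI φ ⧸ K)
      = ((PushoutI.of (φ := φ) j x * z : PushoutI φ) : PushoutI φ ⧸ K) := fun _ _ _ => rfl
  have hρc : ∀ j k c, ρ j (φ j c) = ρ k (φ k c) := by
    intro j k c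
    show MulAction.toPermHom (PushoutI φ) (PushoutI φ ⧸ K) (PushoutI.of (φ := φ) j (φ j c))
      = MulAction.toPermHom (PushoutI φ) (PushoutI φ ⧸ K) (PushoutI.of (φ := φ) k (φ k c))
    rw [PushoutI.of_apply_eq_base, PushoutI.of_apply_eq_base]
  let F0 : ∀ j, G j →* Equiv.Perm (Y ⊕ (PushoutI φ ⧸ K)) := fun j =>
    (Equiv.Perm.sumCongrHom Y (PushoutI φ ⧸ K)).comp ((f j).prod (ρ j))
  have hF0 : ∀ j x w, F0 j x w = Sum.map (f j x) (ρ j x) w := fun _ _ _ => rfl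
  let z : PushoutI φ ⧸ K := ((1 : PushoutI φ) : PushoutI φ ⧸ K)
  have hz : ∀ c, ρ i (φ i c) z = z ↔ c ∈ E := by
    intro c
    rw [← hH, ← hK]
    show ((PushoutI.of (φ := φ) i (φ i c) * 1 : PushoutI φ) : PushoutI φ ⧸ K)
      = ((1 : PushoutI φ) : PushoutI φ ⧸ K) ↔ _
    rw [QuotientGroup.eq]
    simp only [mul_one]
    exact K.inv_mem_iff
  obtain ⟨σ, hσσ, σ1, σ2, σ3, σ4, σ5⟩ := swapLemma ((f i).comp (φ i)) ((ρ i).comp (φ i)) y z
    (fun c => (hy c).trans (hz c).symm)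
  have hσi : σ⁻¹ = σ := by
    rw [inv_eq_iff_mul_eq_one]
    exact Equiv.ext hσσ
  have σy : σ (Sum.inl y) = Sum.inr z := by simpa using σ1 1
  have σz : σ (Sum.inr z) = Sum.inl y := by simpa using σ2 1
  let F : ∀ j, G j →* Equiv.Perm (Y ⊕ (PushoutI φ ⧸ K)) := fun j =>
    if j = i then (MulAut.conj σ).toMonoidHom.comp (F0 j) else F0 j
  have hFi : ∀ x w, F i x w = σ (F0 i x (σ w)) := by
    intro x w
    have : F i = (MulAut.conj σ).toMonoidHom.comp (F0 i) := if_pos rfl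
    rw [this]
    show (σ * F0 i x * σ⁻¹) w = _
    rw [hσi]
    rfl
  have hFj : ∀ j, j ≠ i → F j = F0 j := fun j hj => if_neg hj
  have hFc : ∀ j c w, F j (φ j c) w = F0 j (φ j c) w := by
    intro j c w
    by_cases hj : j = i
    · subst hj
      rw [hFi]
      have := σ5 c (σ w)
      rw [hσσ] at this
      exact this
    · rw [hFj j hj]
  refine ⟨PushoutI φ ⧸ K, F, fun s => (((PushoutI.of (φ := φ) i s)⁻¹ : PushoutI φ) :
    PushoutI φ ⧸ K), ?_, ?_, ?_, ?_, ?_, ?_, ?_⟩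
  · intro j k c
    refine Equiv.ext fun w => ?_
    rw [hFc, hFc, hF0, hF0, hf j k, hρc j k]
  · intro j hj x w
    rw [hFj j hj, hF0]
    rfl
  · intro x w h1 h2
    rw [hFi, σ3 w h1, hF0]
    exact σ3 _ h2
  · intro s hs
    rw [hFi, σy, hF0]
    show σ (Sum.inr (ρ i s⁻¹ z)) = _
    have : ρ i s⁻¹ z = (((PushoutI.of (φ := φ) i s)⁻¹ : PushoutI φ) : PushoutI φ ⧸ K) := by
      rw [hρ, mul_one, map_inv]
    rw [this]
    refine σ4 _ fun c hc => ?_
    have hc' : ((PushoutI.of (φ := φ) i (φ i c) * 1 : PushoutI φ) : PushoutI φ ⧸ K)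
      = (((PushoutI.of (φ := φ) i s)⁻¹ : PushoutI φ) : PushoutI φ ⧸ K) := hc
    rw [QuotientGroup.eq, mul_one] at hc'
    refine hs c ((hK _).1 ?_)
    have := K.inv_mem hc'
    simpa using this
  · intro j s c
    rw [hFc, hF0]
    show Sum.inr _ = Sum.inr _ ↔ _
    rw [Sum.inr.injEq, hρc j i, hρ, QuotientGroup.eq, ← hK, ← K.inv_mem_iff]
    simp [mul_assoc]
  · intro x hx
    rw [hFi, σy, hF0]
    show σ (Sum.inr (ρ i x z)) = _
    have : ρ i x z = z := by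
      rw [hρ, mul_one]
      exact QuotientGroup.eq.2 (by simpa using (hK x).2 hx)
    rw [this, σz]
  · intro j hj x w
    refine ⟨ρ j x w, ?_⟩
    rw [hFj j hj, hF0]
    rfl

lemma Sem.step (hφ : ∀ i, Function.Injective (φ i)) {i₀ i j : Bool} (hij : i ≠ j) {t : Prop}
    {E E' : Subgroup C} {s : G i} (h : Sem φ i₀ t i E) (hs : CP φ i E s E') :
    Sem φ i₀ True j E' := by
  obtain ⟨Y, f, p, y, hf, -, hy, hrob⟩ := h
  obtain ⟨H, hH, hs1, hs2⟩ := hs
  obtain ⟨Z, F, r, T0, T1, T2, T3, T4, T5, T6⟩ := twist hφ i H E hH f hf y hy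
  refine ⟨Y ⊕ Z, F, Sum.inl p, Sum.inr (r s), T0, fun _ => Sum.inl_ne_inr, fun c => ?_, ?_⟩
  · rw [T4, hs1]
  · intro Y' f' e h1 h2
    have h2' : ∀ x w, f' j x (e (Sum.inl w)) = e (Sum.inl (f j x w)) := by
      intro x w
      rw [← T1 j hij.symm]
      refine h2 x _ (fun c hc => ?_) (fun c hc => ?_)
      · obtain ⟨w', hw'⟩ := T6 j hij.symm (φ j c) (r s)
        rw [hw'] at hc
        exact Sum.inr_ne_inl hc
      · obtain ⟨w', hw'⟩ := T6 j hij.symm (φ j c) (r s)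
        rw [hw', T1 j hij.symm] at hc
        exact Sum.inr_ne_inl hc
    obtain ⟨g1, g2⟩ := hrob Y' f' (fun w => e (Sum.inl w))
      (fun k hk x w => by
        obtain rfl := bool_eq hij hk
        exact h2' x w)
      (fun x w hw1 hw2 => by
        rw [h1 i hij, T2 x w hw1 hw2])
    refine ⟨g1, fun S hS hS' => ?_⟩
    have := hS' i s⁻¹ _ (g2 S hS hS')
    rwa [h1 i hij, T3 s hs2] at this

lemma coatom {P : Type u} [Group P] (M₀ : Subgroup P) (T : Finset P) (h0 : M₀ ≠ ⊤)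
    (h : ∀ N : Subgroup P, M₀ ≤ N → (∀ x ∈ T, x ∈ N) → N = ⊤) : ∃ M : Subgroup P, IsCoatom M := by
  classical
  obtain ⟨M, hM, hmax⟩ := zorn_le_nonempty₀ {M : Subgroup P | M₀ ≤ M ∧ M ≠ ⊤} (by
    intro c hc hch y hy
    refine ⟨sSup c, ⟨(hc hy).1.trans (le_sSup hy), fun hm => ?_⟩, fun z hz => le_sSup hz⟩
    have key : ∀ T : Finset P, ∃ s ∈ c, ∀ x ∈ T, x ∈ s := by
      intro T
      induction T using Finset.induction_on with
      | empty => exact ⟨y, hy, fun x hx => absurd hx (Finset.notMem_empty x)⟩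
      | insert a T _ ih =>
        obtain ⟨s, hs, hs'⟩ := ih
        obtain ⟨s', hs1, hs2⟩ := (Subgroup.mem_sSup_of_directedOn ⟨y, hy⟩ hch.directedOn).1
          (hm ▸ Subgroup.mem_top a : a ∈ sSup c)
        obtain ⟨s'', h1, h2, h3⟩ := hch.directedOn s hs s' hs1
        refine ⟨s'', h1, fun x hx => ?_⟩
        rcases Finset.mem_insert.1 hx with rfl | hx
        · exact h3 hs2
        · exact h2 (hs' x hx)
    obtain ⟨s, hs, hs'⟩ := key T
    exact (hc hs).2 (h s (hc hs).1 hs')) M₀ ⟨le_rfl, h0⟩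
  refine ⟨M, hmax.1.2, fun N hN => ?_⟩
  by_contra hc
  exact hN.not_ge (hmax.2 ⟨hM.trans hN.le, hc⟩ hN.le)

/-- The final step. -/
theorem Sem.finish (hφ : ∀ i, Function.Injective (φ i)) {i₀ i : Bool} (hi : i₀ ≠ i)
    {E : Subgroup C} (h : Sem φ i₀ True i E) (H : Subgroup (G i)) (T : Finset (G i))
    (hH : ∀ c, φ i c ∈ H ↔ c ∈ E) (htop : (φ i).range ⊔ H ⊔ Subgroup.closure (T : Set (G i)) = ⊤) :
    ∃ M : Subgroup (PushoutI φ), IsCoatom M := by
  classical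
  obtain ⟨Y, f, p, y, hf, hpy, hy, hrob⟩ := h
  obtain ⟨Z, F, r, T0, T1, T2, T3, T4, T5, T6⟩ := twist hφ i H E hH f hf y hy
  obtain ⟨g1, g2⟩ := hrob (Y ⊕ Z) F Sum.inl (fun j hj x w => T1 j hj x w) T2
  let ψ : PushoutI φ →* Equiv.Perm (Y ⊕ Z) := PushoutI.lift F ((F true).comp (φ true))
    (fun k => MonoidHom.ext fun c => T0 k true c)
  have hψ : ∀ k x, ψ (PushoutI.of (φ := φ) k x) = F k x := fun k x => PushoutI.lift_of _ _ _ _
  obtain ⟨g, hg⟩ : ∃ g : PushoutI φ, ψ g (Sum.inl p) = Sum.inl y := by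
    refine g2 {w | ∃ g : PushoutI φ, ψ g (Sum.inl p) = w} ⟨1, by simp⟩ ?_
    rintro k x w ⟨g, rfl⟩
    exact ⟨PushoutI.of k x * g, by rw [map_mul, hψ]; rfl⟩
  have fin : ∀ N : Subgroup (PushoutI φ),
      (MulAction.stabilizer (Equiv.Perm (Y ⊕ Z)) (Sum.inl p : Y ⊕ Z)).comap ψ ≤ N → g ∈ N →
      (∀ x ∈ T, PushoutI.of (φ := φ) i x ∈ N) → N = ⊤ := by
    intro N hN hgN hT
    have n0 : ∀ x, PushoutI.of (φ := φ) i₀ x ∈ N := by
      intro x
      apply hN
      show ψ _ (Sum.inl p) = Sum.inl p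
      rw [hψ]
      exact g1 x
    have nb : ∀ c, PushoutI.base φ c ∈ N := by
      intro c
      rw [← PushoutI.of_apply_eq_base φ i₀ c]
      exact n0 _
    have nH : ∀ x ∈ H, PushoutI.of (φ := φ) i x ∈ N := by
      intro x hx
      have : g⁻¹ * PushoutI.of (φ := φ) i x * g ∈ N := by
        apply hN
        show ψ (g⁻¹ * PushoutI.of (φ := φ) i x * g) (Sum.inl p) = Sum.inl p
        rw [map_mul, map_mul, Equiv.Perm.mul_apply, Equiv.Perm.mul_apply, hg, hψ, T5 x hx,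
          map_inv, ← hg]
        exact Equiv.symm_apply_apply _ _
      have := N.mul_mem (N.mul_mem hgN this) (N.inv_mem hgN)
      simpa [mul_assoc] using this
    have n1 : ∀ x, PushoutI.of (φ := φ) i x ∈ N := by
      have : (⊤ : Subgroup (G i)) ≤ N.comap (PushoutI.of (φ := φ) i) := by
        rw [← htop]
        refine sup_le (sup_le ?_ fun x hx => nH x hx) ?_
        · rintro _ ⟨c, rfl⟩
          show PushoutI.of (φ := φ) i (φ i c) ∈ N
          rw [PushoutI.of_apply_eq_base]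
          exact nb c
        · rw [Subgroup.closure_le]
          exact fun x hx => hT x hx
      exact fun x => this (Subgroup.mem_top x)
    rw [eq_top_iff]
    intro x hx
    clear hx
    induction x using PushoutI.induction_on with
    | of k x =>
      by_cases hk : k = i
      · subst hk
        exact n1 x
      · obtain rfl := bool_eq hi.symm hk
        exact n0 x
    | base c => exact nb c
    | mul x y hx hy => exact N.mul_mem hx hy
  refine coatom ((MulAction.stabilizer (Equiv.Perm (Y ⊕ Z)) (Sum.inl p : Y ⊕ Z)).comap ψ)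
    (insert g (T.image (PushoutI.of (φ := φ) i))) (fun htop => ?_) fun N hN hT => ?_
  · have h1 : g ∈ (MulAction.stabilizer (Equiv.Perm (Y ⊕ Z)) (Sum.inl p : Y ⊕ Z)).comap ψ :=
      htop ▸ Subgroup.mem_top g
    have h2 : ψ g (Sum.inl p) = Sum.inl p := h1
    rw [hg] at h2
    exact hpy trivial (Sum.inl.inj h2).symm
  · exact fin N hN (hT _ (Finset.mem_insert_self _ _)) fun x hx =>
      hT _ (Finset.mem_insert_of_mem (Finset.mem_image_of_mem _ hx))

end Pool.Agent.H317.AM
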